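import Pool.Agent.H85.ERG.Targets

/-!
# The cutoff along the orbits, module FV: volume of the states entering a neighbourhood
-/

namespace Pool.Agent.H55.ERG

open MeasureTheory Set Metric Filter Topology Pool.Agent.H85.ERG Pool.Agent.H93.EN
open Pool.Agent.H93.BL hiding T_B1 T_B2 T_B3 T_SB T_SC

/-- volume of a set of states whose positions belong to `S` -/
lemma pv_le_FV {ι : Type} (P : Polygon ι) (A : Set (ℂ × ℂ)) (S : Set ℂ) (hS : MeasurableSet S)
    (hA : ∀ z ∈ A, z.1 ∈ S) : pv P A ≤ ENNReal.ofReal (2 * Real.pi) * volume S := by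
  unfold pv PI
  have h1 : ∀ x : ℂ, ∫⁻ θ in Ioo 0 (2 * Real.pi),
      A.indicator (1 : ℂ × ℂ → ENNReal) (x, Complex.exp ((θ : ℂ) * Complex.I)) ≤
        ENNReal.ofReal (2 * Real.pi) * S.indicator (1 : ℂ → ENNReal) x := by
    intro x
    calc ∫⁻ θ in Ioo 0 (2 * Real.pi),
        A.indicator (1 : ℂ × ℂ → ENNReal) (x, Complex.exp ((θ : ℂ) * Complex.I))
        ≤ ∫⁻ _ in Ioo 0 (2 * Real.pi), S.indicator (1 : ℂ → ENNReal) x := by
          refine lintegral_mono fun θ => ?_
          by_cases hx : (x, Complex.exp ((θ : ℂ) * Complex.I)) ∈ A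
          · rw [indicator_of_mem hx, indicator_of_mem (hA _ hx)]
            simp
          · rw [indicator_of_notMem hx]
            exact zero_le
      _ = ENNReal.ofReal (2 * Real.pi) * S.indicator (1 : ℂ → ENNReal) x := by
          rw [lintegral_const, Measure.restrict_apply_univ, Real.volume_Ioo, sub_zero, mul_comm]
  calc ∫⁻ x in P.Ω, ∫⁻ θ in Ioo 0 (2 * Real.pi),
      A.indicator (1 : ℂ × ℂ → ENNReal) (x, Complex.exp ((θ : ℂ) * Complex.I))
      ≤ ∫⁻ x in P.Ω, ENNReal.ofReal (2 * Real.pi) * S.indicator (1 : ℂ → ENNReal) x :=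
        lintegral_mono fun x => h1 x
    _ ≤ ∫⁻ x, ENNReal.ofReal (2 * Real.pi) * S.indicator (1 : ℂ → ENNReal) x :=
        setLIntegral_le_lintegral _ _
    _ = ENNReal.ofReal (2 * Real.pi) * volume S := by
        rw [lintegral_const_mul _ (measurable_one.indicator hS), lintegral_indicator_one hS]

theorem fv (h1 : T_MP) (h2 : T_PM) (h3 : T_RV) (h4 : T_PV) (h5 : T_SH) : T_FV := by
  intro ι _ P κ hLS
  obtain ⟨-, C, hC, hSH⟩ := h5 ι P
  have hκ : 0 < κ := hLS.1
  have hκ4 : κ ≤ 1 / 4 := hLS.2.1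
  have hcont : Continuous (rh P) := continuous_infDist_pt _
  obtain ⟨-, hmono, -, -⟩ := h4 ι P
  refine ⟨2 * Real.pi * C, by positivity, ?_⟩
  intro a h R ha hh hha haR
  have hR : 0 < R := by linarith
  have hhR : h ≤ R := by nlinarith
  have hm0 : MeasurableSet (Fn P κ a h R 0) := by
    have e : Fn P κ a h R 0 = (Prod.fst ⁻¹' P.Ω) ∩ ({z : ℂ × ℂ | ‖z.2‖ = 1} ∩
        {z : ℂ × ℂ | rh P z.1 < R}) := rfl
    rw [e]
    refine (P.isOpen.measurableSet.preimage measurable_fst).inter (MeasurableSet.inter ?_ ?_)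
    · exact (isClosed_eq (continuous_norm.comp continuous_snd) continuous_const).measurableSet
    · exact (isOpen_lt (hcont.comp continuous_fst) continuous_const).measurableSet
  have hmc : MeasurableSet {z : ℂ × ℂ | R ≤ rh P z.1} :=
    (isClosed_le continuous_const (hcont.comp continuous_fst)).measurableSet
  have hm : ∀ n, MeasurableSet (Fn P κ a h R n) := by
    intro n
    induction n with
    | zero => exact hm0
    | succ n ih => exact hmc.inter (h2 ι P κ hLS a h ha hh.le hha _ ih)
  have hsm : ∀ r : ℝ, MeasurableSet {x : ℂ | R - r ≤ rh P x ∧ rh P x < R} := fun r =>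
    ((isClosed_le continuous_const hcont).measurableSet).inter
      (isOpen_lt hcont continuous_const).measurableSet
  have hvol : ∀ r ∈ Ioc 0 R, ENNReal.ofReal (2 * Real.pi) *
      volume {x : ℂ | R - r ≤ rh P x ∧ rh P x < R} ≤ ENNReal.ofReal (2 * Real.pi * C * R * r) := by
    intro r hr
    calc ENNReal.ofReal (2 * Real.pi) * volume {x : ℂ | R - r ≤ rh P x ∧ rh P x < R}
        ≤ ENNReal.ofReal (2 * Real.pi) * ENNReal.ofReal (C * R * r) :=
          mul_le_mul_right (hSH R hR r hr) _
      _ = ENNReal.ofReal (2 * Real.pi * C * R * r) := by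
          rw [← ENNReal.ofReal_mul (by positivity)]
          congr 1
          ring
  refine ⟨?_, ?_⟩
  · calc pv P (Fn P κ a h R 0)
        ≤ ENNReal.ofReal (2 * Real.pi) * volume {x : ℂ | R - R ≤ rh P x ∧ rh P x < R} := by
          refine pv_le_FV P _ _ (hsm R) ?_
          intro z hz
          refine ⟨?_, hz.2.2⟩
          rw [sub_self]
          exact infDist_nonneg
      _ ≤ ENNReal.ofReal (2 * Real.pi * C * R * R) := hvol R ⟨hR, le_rfl⟩
      _ = ENNReal.ofReal (2 * Real.pi * C * R ^ 2) := by congr 1; ring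
  · intro n
    refine ⟨hm n, ?_⟩
    induction n with
    | zero =>
      set A1 : Set (ℂ × ℂ) := Fn P κ a h R 0 ∩ {z | R - h ≤ rh P z.1} with hA1
      have hA1m : MeasurableSet A1 := hm0.inter
        (isClosed_le continuous_const (hcont.comp continuous_fst)).measurableSet
      calc pv P (Fn P κ a h R (0 + 1)) ≤ pv P (Pre P κ a h A1) := by
            refine hmono _ _ ?_
            intro x w _ _ hz
            obtain ⟨hz1, hz2, x', w', hmv, hmem⟩ := hz
            refine ⟨hz2, x', w', hmv, hmem, ?_⟩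
            have hd := ((h3 ι P κ a hLS ha).2.2.1 _ _ _ _ _ hmv).2
            have hn : ‖(h : ℂ) * w‖ = h := by
              rw [norm_mul, hz2, mul_one, Complex.norm_real, Real.norm_of_nonneg hh.le]
            rw [hn] at hd
            have hz1' : R ≤ rh P x := hz1
            have := (abs_le.1 hd).1
            change R - h ≤ rh P x'
            change -h ≤ rh P x' - rh P x at this
            linarith
        _ ≤ pv P A1 := h1 ι P κ hLS a h ha hh.le hha A1 hA1m
        _ ≤ ENNReal.ofReal (2 * Real.pi) * volume {x : ℂ | R - h ≤ rh P x ∧ rh P x < R} := by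
            refine pv_le_FV P _ _ (hsm h) ?_
            intro z hz
            exact ⟨hz.2, hz.1.2.2⟩
        _ ≤ ENNReal.ofReal (2 * Real.pi * C * R * h) := hvol h ⟨hh, hhR⟩
    | succ n ih =>
      calc pv P (Fn P κ a h R (n + 1 + 1)) ≤ pv P (Pre P κ a h (Fn P κ a h R (n + 1))) :=
            hmono _ _ fun x w _ _ hz => hz.2
        _ ≤ pv P (Fn P κ a h R (n + 1)) := h1 ι P κ hLS a h ha hh.le hha _ (hm (n + 1))
        _ ≤ _ := ih

end Pool.Agent.H55.ERG
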